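import Pool.Agent.Lib.MP_c1e222_an.Iface

/-!
# MP_c1e222_an: tools for integrals over space and space-time (helper70)
-/

set_option autoImplicit false

namespace Pool.Agent.C1E.S70

open MeasureTheory Set Filter Topology

noncomputable section

/-- jointly continuous -/
def JC (H : ℝ → ℝ → ℝ) : Prop := Continuous fun q : ℝ × ℝ => H q.1 q.2

/-- space-time integral -/
def ii (t0 t1 : ℝ) (H : ℝ → ℝ → ℝ) : ℝ := ∫ t in t0..t1, cint (H t)

/-! ### continuity -/

theorem cint_cont {X : Type*} [TopologicalSpace X] {F : X → ℝ → ℝ}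
    (hF : Continuous fun q : X × ℝ => F q.1 q.2) : Continuous fun a => cint (F a) := by
  unfold cint
  exact intervalIntegral.continuous_parametric_intervalIntegral_of_continuous' hF _ _

theorem JC.slice {H : ℝ → ℝ → ℝ} (h : JC H) (t : ℝ) : Continuous (H t) := by
  have h1 : Continuous fun q : ℝ × ℝ => H q.1 q.2 := h
  exact h1.comp (Continuous.prodMk_right t)

theorem JC.cint {H : ℝ → ℝ → ℝ} (h : JC H) : Continuous fun t => cint (H t) := cint_cont h

theorem JC.add {F G : ℝ → ℝ → ℝ} (hF : JC F) (hG : JC G) : JC fun t x => F t x + G t x :=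
  Continuous.add hF hG

theorem JC.sub {F G : ℝ → ℝ → ℝ} (hF : JC F) (hG : JC G) : JC fun t x => F t x - G t x :=
  Continuous.sub hF hG

theorem JC.mul {F G : ℝ → ℝ → ℝ} (hF : JC F) (hG : JC G) : JC fun t x => F t x * G t x :=
  Continuous.mul hF hG

theorem JC.pow {F : ℝ → ℝ → ℝ} (hF : JC F) (n : ℕ) : JC fun t x => (F t x) ^ n :=
  Continuous.pow hF n

theorem JC.abs {F : ℝ → ℝ → ℝ} (hF : JC F) : JC fun t x => |F t x| := by
  have h1 : Continuous fun q : ℝ × ℝ => F q.1 q.2 := hF
  exact h1.abs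

theorem JC.const (c : ℝ) : JC fun _ _ => c := continuous_const

theorem JC.shift {F : ℝ → ℝ → ℝ} (hF : JC F) (z : ℝ) : JC fun t x => F t (x - z) := by
  have h1 : Continuous fun q : ℝ × ℝ => F q.1 q.2 := hF
  have h2 : Continuous fun q : ℝ × ℝ => ((q.1, q.2 - z) : ℝ × ℝ) := by fun_prop
  exact h1.comp h2

theorem JC.refl {F : ℝ → ℝ → ℝ} (hF : JC F) (z : ℝ) : JC fun t x => F t (z - x) := by
  have h1 : Continuous fun q : ℝ × ℝ => F q.1 q.2 := hF
  have h2 : Continuous fun q : ℝ × ℝ => ((q.1, z - q.2) : ℝ × ℝ) := by fun_prop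
  exact h1.comp h2

theorem JC.sum {ι : Type*} {s : Finset ι} {F : ι → ℝ → ℝ → ℝ} (hF : ∀ i ∈ s, JC (F i)) :
    JC fun t x => ∑ i ∈ s, F i t x :=
  continuous_finsetSum s fun i hi => hF i hi

theorem Dir_cont (a : ℕ) : Continuous (Dir a) := by
  unfold Dir
  fun_prop

theorem V_cont (i : ℕ) : Continuous (V i) := by
  unfold V
  have h1 := Dir_cont (vb i)
  have h2 := Dir_cont (va i)
  exact (continuous_const.mul h1).mul ((h2.div_const _).pow 3)

theorem A_cont (i : ℕ) : Continuous (A i) := (V_cont (i + 1)).sub (V_cont i)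

theorem PA_cont (i : ℕ) : Continuous (PA i) := by
  unfold PA
  exact intervalIntegral.continuous_primitive (fun a b => (A_cont i).intervalIntegrable a b) 0

theorem Dir_per (a : ℕ) : Function.Periodic (Dir a) 2 := by
  intro x
  unfold Dir
  congr 2
  refine Finset.sum_congr rfl fun n _ => ?_
  have e : Real.pi * ((n : ℝ) + 1) * (x + 2) =
      Real.pi * ((n : ℝ) + 1) * x + ((n + 1 : ℕ) : ℝ) * (2 * Real.pi) := by push_cast; ring
  rw [e, Real.cos_add_nat_mul_two_pi]

theorem V_per (i : ℕ) : Function.Periodic (V i) 2 := by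
  intro x
  unfold V
  rw [Dir_per (vb i) x, Dir_per (va i) x]

theorem A_per (i : ℕ) : Function.Periodic (A i) 2 := by
  intro x
  unfold A
  rw [V_per (i + 1) x, V_per i x]

theorem conv_per {P : ℝ → ℝ} (hP : Function.Periodic P 2) (f : ℝ → ℝ) :
    Function.Periodic (conv P f) 2 := by
  intro x
  unfold conv
  refine intervalIntegral.integral_congr fun y _ => ?_
  have e : x + 2 - y = (x - y) + 2 := by ring
  show P (x + 2 - y) * f y = P (x - y) * f y
  rw [e, hP (x - y)]

theorem conv_cont {P f : ℝ → ℝ} (hP : Continuous P) (hf : Continuous f) : Continuous (conv P f) := by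
  have h1 : Continuous fun q : ℝ × ℝ => P (q.1 - q.2) * f q.2 :=
    (hP.comp (continuous_fst.sub continuous_snd)).mul (hf.comp continuous_snd)
  exact intervalIntegral.continuous_parametric_intervalIntegral_of_continuous' h1 _ _

theorem JC.conv {P : ℝ → ℝ} (hP : Continuous P) {F : ℝ → ℝ → ℝ} (hF : JC F) :
    JC fun t x => conv P (F t) x := by
  have h0 : Continuous fun q : ℝ × ℝ => F q.1 q.2 := hF
  have h1 : Continuous fun q : (ℝ × ℝ) × ℝ => P (q.1.2 - q.2) * F q.1.1 q.2 :=
    (hP.comp (by fun_prop : Continuous fun q : (ℝ × ℝ) × ℝ => q.1.2 - q.2)).mul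
      (h0.comp (by fun_prop : Continuous fun q : (ℝ × ℝ) × ℝ => ((q.1.1, q.2) : ℝ × ℝ)))
  exact intervalIntegral.continuous_parametric_intervalIntegral_of_continuous'
    (X := ℝ × ℝ) (f := fun p y => P (p.2 - y) * F p.1 y) h1 _ _

theorem JC.lo {F : ℝ → ℝ → ℝ} (hF : JC F) (i : ℕ) : JC fun t x => Lo i (F t) x :=
  JC.conv (V_cont i) hF

theorem JC.pa {F : ℝ → ℝ → ℝ} (hF : JC F) (i : ℕ) : JC fun t x => Pa i (F t) x :=
  JC.conv (A_cont i) hF

theorem JC.pp {F : ℝ → ℝ → ℝ} (hF : JC F) (i : ℕ) : JC fun t x => Pp i (F t) x :=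
  JC.conv (PA_cont i) hF

theorem dl_cont : Continuous dl := by
  unfold dl
  fun_prop

theorem dl_nonneg (x : ℝ) : 0 ≤ dl x := abs_nonneg _

theorem dl_zero : dl 0 = 0 := by
  unfold dl
  simp

theorem dl_neg (x : ℝ) : dl (-x) = dl x := by
  unfold dl
  have e : Real.pi * -x / 2 = -(Real.pi * x / 2) := by ring
  rw [e, Real.sin_neg, abs_neg]

theorem kap_pos (i : ℕ) : 0 < kap i := by
  unfold kap
  positivity

theorem kap_ge (i : ℕ) : 1024 ≤ kap i := by
  unfold kap
  have h1 : (1 : ℝ) ≤ (65 / 64 : ℝ) ^ i := one_le_pow₀ (by norm_num)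
  linarith

theorem kap_add (i m : ℕ) : kap (i + m) = kap i * (65 / 64 : ℝ) ^ m := by
  unfold kap
  rw [pow_add]
  ring

theorem kap_mono {i j : ℕ} (h : i ≤ j) : kap i ≤ kap j := by
  obtain ⟨m, rfl⟩ := Nat.exists_eq_add_of_le h
  rw [kap_add]
  have h1 : (1 : ℝ) ≤ (65 / 64 : ℝ) ^ m := one_le_pow₀ (by norm_num)
  exact le_mul_of_one_le_right (kap_pos i).le h1

theorem th_cont (i : ℕ) : Continuous (th i) := by
  unfold th
  refine continuous_const.div ?_ ?_
  · exact (continuous_const.add (continuous_const.mul dl_cont)).pow 2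
  · intro x
    have h1 := kap_pos i
    have h2 := dl_nonneg x
    positivity

/-! ### integrals in space -/

theorem cint_add {f g : ℝ → ℝ} (hf : Continuous f) (hg : Continuous g) :
    cint (fun x => f x + g x) = cint f + cint g :=
  intervalIntegral.integral_add (hf.intervalIntegrable _ _) (hg.intervalIntegrable _ _)

theorem cint_sub {f g : ℝ → ℝ} (hf : Continuous f) (hg : Continuous g) :
    cint (fun x => f x - g x) = cint f - cint g :=
  intervalIntegral.integral_sub (hf.intervalIntegrable _ _) (hg.intervalIntegrable _ _)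

theorem cint_mul (c : ℝ) (f : ℝ → ℝ) : cint (fun x => c * f x) = c * cint f :=
  intervalIntegral.integral_const_mul c f

theorem cint_const (c : ℝ) : cint (fun _ => c) = 2 * c := by
  unfold cint
  rw [intervalIntegral.integral_const]
  norm_num

theorem cint_mono {f g : ℝ → ℝ} (hf : Continuous f) (hg : Continuous g) (h : ∀ x, f x ≤ g x) :
    cint f ≤ cint g :=
  intervalIntegral.integral_mono (by norm_num) (hf.intervalIntegrable _ _)
    (hg.intervalIntegrable _ _) h

theorem cint_nonneg {f : ℝ → ℝ} (h : ∀ x, 0 ≤ f x) : 0 ≤ cint f :=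
  intervalIntegral.integral_nonneg (by norm_num) fun x _ => h x

theorem abs_cint_le (f : ℝ → ℝ) : |cint f| ≤ cint fun x => |f x| :=
  intervalIntegral.abs_integral_le_integral_abs (by norm_num)

theorem cint_sum {ι : Type*} (s : Finset ι) {f : ι → ℝ → ℝ} (hf : ∀ i ∈ s, Continuous (f i)) :
    cint (fun x => ∑ i ∈ s, f i x) = ∑ i ∈ s, cint (f i) := by
  unfold cint
  rw [intervalIntegral.integral_finsetSum]
  intro i hi
  exact (hf i hi).intervalIntegrable _ _

theorem cint_neg_arg (f : ℝ → ℝ) : cint (fun x => f (-x)) = cint f := by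
  unfold cint
  rw [intervalIntegral.integral_comp_neg, neg_neg]

theorem cint_shift {f : ℝ → ℝ} (hp : Function.Periodic f 2) (z : ℝ) :
    cint (fun x => f (x - z)) = cint f := by
  unfold cint
  rw [intervalIntegral.integral_comp_sub_right]
  have h1 := hp.intervalIntegral_add_eq (-1 - z) (-1)
  have e1 : -1 - z + 2 = 1 - z := by ring
  have e2 : (-1 : ℝ) + 2 = 1 := by norm_num
  rw [e1, e2] at h1
  exact h1

theorem cint_refl {f : ℝ → ℝ} (hp : Function.Periodic f 2) (z : ℝ) :
    cint (fun x => f (z - x)) = cint f := by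
  have h1 : cint (fun x => f (z - x)) = cint (fun x => f (x - -z)) := by
    rw [← cint_neg_arg]
    congr 1
    funext x
    congr 1
    ring
  rw [h1, cint_shift hp]

/-- convolution with the kernel at the integration variable -/
theorem conv_eq {P f : ℝ → ℝ} (hP : Function.Periodic P 2) (hf : Function.Periodic f 2) (x : ℝ) :
    conv P f x = cint fun z => P z * f (x - z) := by
  have hg : Function.Periodic (fun y => P (x - y) * f y) 2 := by
    intro y
    show P (x - (y + 2)) * f (y + 2) = P (x - y) * f y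
    rw [hf y]
    congr 1
    have h1 := hP (x - (y + 2))
    rw [← h1]
    congr 1
    ring
  have h1 := cint_refl hg x
  unfold conv
  show cint (fun y => P (x - y) * f y) = _
  rw [← h1]
  congr 1
  funext y
  show P (x - (x - y)) * f (x - y) = P y * f (x - y)
  rw [sub_sub_cancel]

theorem cint_cs {f g : ℝ → ℝ} (hf : Continuous f) (hg : Continuous g) :
    (cint fun x => f x * g x) ^ 2 ≤ (cint fun x => (f x) ^ 2) * cint fun x => (g x) ^ 2 := by
  have h1 : ∀ lam : ℝ, 0 ≤ (cint fun x => (f x) ^ 2) * (lam * lam) +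
      (-2 * cint fun x => f x * g x) * lam + cint fun x => (g x) ^ 2 := by
    intro lam
    have h2 : 0 ≤ cint fun x => (lam * f x - g x) ^ 2 := cint_nonneg fun x => sq_nonneg _
    have h3 : (cint fun x => (lam * f x - g x) ^ 2) =
        cint fun x => ((lam * lam) * (f x) ^ 2 + (-2 * lam) * (f x * g x)) + (g x) ^ 2 := by
      congr 1
      funext x
      ring
    rw [h3, cint_add (by fun_prop) (by fun_prop), cint_add (by fun_prop) (by fun_prop), cint_mul,
      cint_mul] at h2
    linarith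
  have h4 := discrim_le_zero h1
  unfold discrim at h4
  nlinarith

/-! ### integrals in space-time -/

section st

variable {t0 t1 : ℝ} {F G : ℝ → ℝ → ℝ}

theorem ii_add (hF : JC F) (hG : JC G) :
    ii t0 t1 (fun t x => F t x + G t x) = ii t0 t1 F + ii t0 t1 G := by
  unfold ii
  rw [← intervalIntegral.integral_add (hF.cint.intervalIntegrable _ _)
    (hG.cint.intervalIntegrable _ _)]
  refine intervalIntegral.integral_congr fun t _ => ?_
  exact cint_add (hF.slice t) (hG.slice t)

theorem ii_sub (hF : JC F) (hG : JC G) :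
    ii t0 t1 (fun t x => F t x - G t x) = ii t0 t1 F - ii t0 t1 G := by
  unfold ii
  rw [← intervalIntegral.integral_sub (hF.cint.intervalIntegrable _ _)
    (hG.cint.intervalIntegrable _ _)]
  refine intervalIntegral.integral_congr fun t _ => ?_
  exact cint_sub (hF.slice t) (hG.slice t)

theorem ii_mul (c : ℝ) (F : ℝ → ℝ → ℝ) :
    ii t0 t1 (fun t x => c * F t x) = c * ii t0 t1 F := by
  unfold ii
  rw [← intervalIntegral.integral_const_mul]
  refine intervalIntegral.integral_congr fun t _ => ?_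
  exact cint_mul c (F t)

theorem ii_const (c : ℝ) : ii t0 t1 (fun _ _ => c) = (t1 - t0) * (2 * c) := by
  unfold ii
  simp only [cint_const, intervalIntegral.integral_const, smul_eq_mul]

theorem ii_mono (h : t0 ≤ t1) (hF : JC F) (hG : JC G) (hle : ∀ t x, F t x ≤ G t x) :
    ii t0 t1 F ≤ ii t0 t1 G :=
  intervalIntegral.integral_mono h (hF.cint.intervalIntegrable _ _)
    (hG.cint.intervalIntegrable _ _) fun t => cint_mono (hF.slice t) (hG.slice t) (hle t)

theorem ii_mono_on (h : t0 ≤ t1) (hF : JC F) (hG : JC G)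
    (hle : ∀ t ∈ Icc t0 t1, ∀ x, F t x ≤ G t x) : ii t0 t1 F ≤ ii t0 t1 G :=
  intervalIntegral.integral_mono_on h (hF.cint.intervalIntegrable _ _)
    (hG.cint.intervalIntegrable _ _) fun t ht => cint_mono (hF.slice t) (hG.slice t) (hle t ht)

theorem ii_nonneg (h : t0 ≤ t1) (hF : ∀ t x, 0 ≤ F t x) : 0 ≤ ii t0 t1 F :=
  intervalIntegral.integral_nonneg h fun t _ => cint_nonneg (hF t)

/-- bound for each time -/
theorem ii_le (h : t0 ≤ t1) (hF : JC F) {B : ℝ} (hB : ∀ t ∈ Icc t0 t1, cint (F t) ≤ B) :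
    ii t0 t1 F ≤ (t1 - t0) * B := by
  have h1 : ii t0 t1 F ≤ ∫ _ in t0..t1, B :=
    intervalIntegral.integral_mono_on h (hF.cint.intervalIntegrable _ _)
      (continuous_const.intervalIntegrable _ _) hB
  rw [intervalIntegral.integral_const, smul_eq_mul] at h1
  exact h1

theorem abs_ii_le (h : t0 ≤ t1) (hF : JC F) {B : ℝ} (hB : ∀ t ∈ Icc t0 t1, |cint (F t)| ≤ B) :
    |ii t0 t1 F| ≤ (t1 - t0) * B := by
  have h0 : |ii t0 t1 F| ≤ ∫ t in t0..t1, |cint (F t)| :=
    intervalIntegral.abs_integral_le_integral_abs h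
  have h1 : (∫ t in t0..t1, |cint (F t)|) ≤ ∫ _ in t0..t1, B :=
    intervalIntegral.integral_mono_on h (hF.cint.abs.intervalIntegrable _ _)
      (continuous_const.intervalIntegrable _ _) hB
  rw [intervalIntegral.integral_const, smul_eq_mul] at h1
  exact h0.trans h1

theorem abs_ii_le_ii (h : t0 ≤ t1) (hF : JC F) : |ii t0 t1 F| ≤ ii t0 t1 fun t x => |F t x| := by
  have h0 : |ii t0 t1 F| ≤ ∫ t in t0..t1, |cint (F t)| :=
    intervalIntegral.abs_integral_le_integral_abs h
  refine h0.trans ?_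
  exact intervalIntegral.integral_mono h (hF.cint.abs.intervalIntegrable _ _)
    (hF.abs.cint.intervalIntegrable _ _) fun t => abs_cint_le (F t)

theorem ii_sum {ι : Type*} (s : Finset ι) {F : ι → ℝ → ℝ → ℝ} (hF : ∀ i ∈ s, JC (F i)) :
    ii t0 t1 (fun t x => ∑ i ∈ s, F i t x) = ∑ i ∈ s, ii t0 t1 (F i) := by
  unfold ii
  rw [← intervalIntegral.integral_finsetSum fun i hi => (hF i hi).cint.intervalIntegrable _ _]
  refine intervalIntegral.integral_congr fun t _ => ?_
  exact cint_sum s fun i hi => (hF i hi).slice t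

/-- Cauchy-Schwarz -/
theorem ii_cs (h : t0 ≤ t1) (hF : JC F) (hG : JC G) :
    (ii t0 t1 fun t x => F t x * G t x) ^ 2 ≤
      (ii t0 t1 fun t x => (F t x) ^ 2) * ii t0 t1 fun t x => (G t x) ^ 2 := by
  have h1 : ∀ lam : ℝ, 0 ≤ (ii t0 t1 fun t x => (F t x) ^ 2) * (lam * lam) +
      (-2 * ii t0 t1 fun t x => F t x * G t x) * lam + ii t0 t1 fun t x => (G t x) ^ 2 := by
    intro lam
    have h2 : 0 ≤ ii t0 t1 fun t x => (lam * F t x - G t x) ^ 2 :=
      ii_nonneg h fun t x => sq_nonneg _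
    have h3 : (ii t0 t1 fun t x => (lam * F t x - G t x) ^ 2) =
        ii t0 t1 fun t x => ((lam * lam) * (F t x) ^ 2 + (-2 * lam) * (F t x * G t x)) +
          (G t x) ^ 2 := by
      congr 1
      funext t x
      ring
    rw [h3, ii_add (((JC.const _).mul (hF.pow 2)).add ((JC.const _).mul (hF.mul hG))) (hG.pow 2),
      ii_add ((JC.const _).mul (hF.pow 2)) ((JC.const _).mul (hF.mul hG)), ii_mul, ii_mul] at h2
    linarith
  have h4 := discrim_le_zero h1
  unfold discrim at h4
  nlinarith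

end st

/-- Fubini for continuous functions -/
theorem swap {F : ℝ → ℝ → ℝ} (hF : JC F) (a b c d : ℝ) :
    (∫ x in a..b, ∫ y in c..d, F x y) = ∫ y in c..d, ∫ x in a..b, F x y := by
  have h0 : Continuous (Function.uncurry F) := hF
  refine MeasureTheory.intervalIntegral_intervalIntegral_swap ?_
  have h1 : IntegrableOn (Function.uncurry F) (uIcc a b ×ˢ uIcc c d) :=
    h0.continuousOn.integrableOn_compact (isCompact_uIcc.prod isCompact_uIcc)
  exact h1.mono_set (prod_mono uIoc_subset_uIcc uIoc_subset_uIcc)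

/-- The kernel lemma. -/
theorem kern {t0 t1 : ℝ} (h : t0 ≤ t1) {P : ℝ → ℝ} (hP : Continuous P)
    (hPp : Function.Periodic P 2) {F G : ℝ → ℝ → ℝ} (hF : JC F) (hFp : ∀ t, Function.Periodic (F t) 2)
    (hG : JC G) :
    ii t0 t1 (fun t x => |conv P (F t) x| * |G t x|) ≤
      cint fun z => |P z| * ii t0 t1 fun t x => |F t (x - z)| * |G t x| := by
  have hF0 : Continuous fun q : ℝ × ℝ => F q.1 q.2 := hF
  have hG0 : Continuous fun q : ℝ × ℝ => G q.1 q.2 := hG
  -- joint continuity of the three variable integrand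
  have h3 : Continuous fun q : (ℝ × ℝ) × ℝ => |P q.2| * (|F q.1.1 (q.1.2 - q.2)| * |G q.1.1 q.1.2|) := by
    have e1 : Continuous fun q : (ℝ × ℝ) × ℝ => F q.1.1 (q.1.2 - q.2) :=
      hF0.comp (by fun_prop : Continuous fun q : (ℝ × ℝ) × ℝ => ((q.1.1, q.1.2 - q.2) : ℝ × ℝ))
    have e2 : Continuous fun q : (ℝ × ℝ) × ℝ => G q.1.1 q.1.2 := hG0.comp (by fun_prop)
    exact (hP.comp continuous_snd).abs.mul (e1.abs.mul e2.abs)
  have hJ1 : JC fun t x => cint fun z => |P z| * (|F t (x - z)| * |G t x|) :=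
    intervalIntegral.continuous_parametric_intervalIntegral_of_continuous'
      (X := ℝ × ℝ) (f := fun p z => |P z| * (|F p.1 (p.2 - z)| * |G p.1 p.2|)) h3 _ _
  have hstep1 : ii t0 t1 (fun t x => |conv P (F t) x| * |G t x|) ≤
      ii t0 t1 fun t x => cint fun z => |P z| * (|F t (x - z)| * |G t x|) := by
    refine ii_mono h ((JC.conv hP hF).abs.mul hG.abs) hJ1 fun t x => ?_
    rw [conv_eq hPp (hFp t) x]
    have e1 := abs_cint_le fun z => P z * F t (x - z)
    have e2 : (cint fun z => |P z| * (|F t (x - z)| * |G t x|)) =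
        (cint fun z => |P z * F t (x - z)|) * |G t x| := by
      rw [mul_comm (cint _) |G t x|, ← cint_mul]
      congr 1
      funext z
      rw [abs_mul]
      ring
    rw [e2]
    exact mul_le_mul_of_nonneg_right e1 (abs_nonneg _)
  refine hstep1.trans (le_of_eq ?_)
  -- first swap: `x` and `z` for fixed `t`
  have h4 : ∀ t, JC fun x z => |P z| * (|F t (x - z)| * |G t x|) := by
    intro t
    exact h3.comp (by fun_prop : Continuous fun q : ℝ × ℝ => (((t, q.1), q.2) : (ℝ × ℝ) × ℝ))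
  have h5 : ∀ t, (cint fun x => cint fun z => |P z| * (|F t (x - z)| * |G t x|)) =
      cint fun z => |P z| * cint fun x => |F t (x - z)| * |G t x| := by
    intro t
    have e1 := swap (h4 t) (-1) 1 (-1) 1
    unfold cint
    rw [e1]
    refine intervalIntegral.integral_congr fun z _ => ?_
    exact intervalIntegral.integral_const_mul _ _
  have h6 : JC fun t z => |P z| * cint fun x => |F t (x - z)| * |G t x| := by
    have e1 : Continuous fun q : (ℝ × ℝ) × ℝ => |F q.1.1 (q.2 - q.1.2)| * |G q.1.1 q.2| := by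
      have e2 : Continuous fun q : (ℝ × ℝ) × ℝ => F q.1.1 (q.2 - q.1.2) :=
        hF0.comp (by fun_prop : Continuous fun q : (ℝ × ℝ) × ℝ => ((q.1.1, q.2 - q.1.2) : ℝ × ℝ))
      have e3 : Continuous fun q : (ℝ × ℝ) × ℝ => G q.1.1 q.2 :=
        hG0.comp (by fun_prop : Continuous fun q : (ℝ × ℝ) × ℝ => ((q.1.1, q.2) : ℝ × ℝ))
      exact e2.abs.mul e3.abs
    have e4 : Continuous fun p : ℝ × ℝ => cint fun x => |F p.1 (x - p.2)| * |G p.1 x| :=
      cint_cont e1
    exact (hP.comp continuous_snd).abs.mul e4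
  have h7 : (ii t0 t1 fun t x => cint fun z => |P z| * (|F t (x - z)| * |G t x|)) =
      ∫ t in t0..t1, cint fun z => |P z| * cint fun x => |F t (x - z)| * |G t x| := by
    unfold ii
    exact intervalIntegral.integral_congr fun t _ => h5 t
  rw [h7]
  have e2 := swap h6 t0 t1 (-1) 1
  unfold ii
  show (∫ t in t0..t1, ∫ z in (-1 : ℝ)..1, |P z| * cint fun x => |F t (x - z)| * |G t x|) =
    ∫ z in (-1 : ℝ)..1, |P z| * ∫ t in t0..t1, cint fun x => |F t (x - z)| * |G t x|
  rw [e2]
  refine intervalIntegral.integral_congr fun z _ => ?_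
  exact intervalIntegral.integral_const_mul _ _

theorem xx_cont {u r : ℝ → ℝ → ℝ} (hu : JC u) (hr : JC r) (l j : ℕ) :
    Continuous fun t => xx l j (u t) (r t) := by
  have hu0 : Continuous fun q : ℝ × ℝ => u q.1 q.2 := hu
  have h1 : Continuous fun q : ℝ × ℝ => Pa l (r q.1) q.2 := hr.pa l
  have h2 : Continuous fun q : ℝ × ℝ => Pa j (r q.1) q.2 := hr.pa j
  have h3 : Continuous fun q : (ℝ × ℝ) × ℝ =>
      th l (q.1.2 - q.2) * (u q.1.1 q.1.2) ^ 2 * (Pa l (r q.1.1) q.1.2) ^ 2 *
        (Pa j (r q.1.1) q.2) ^ 2 := by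
    refine (((((th_cont l).comp ?_).mul ((hu0.comp ?_).pow 2))).mul ((h1.comp ?_).pow 2)).mul
      ((h2.comp (?_ : Continuous fun q : (ℝ × ℝ) × ℝ => ((q.1.1, q.2) : ℝ × ℝ))).pow 2)
    · fun_prop
    · fun_prop
    · fun_prop
    · fun_prop
  have h4 : Continuous fun q : ℝ × ℝ => cint fun y =>
      th l (q.2 - y) * (u q.1 q.2) ^ 2 * (Pa l (r q.1) q.2) ^ 2 * (Pa j (r q.1) y) ^ 2 :=
    cint_cont h3
  exact cint_cont (F := fun t x => cint fun y =>
      th l (x - y) * (u t x) ^ 2 * (Pa l (r t) x) ^ 2 * (Pa j (r t) y) ^ 2) h4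

end

end Pool.Agent.C1E.S70
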